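import Pool.Agent.J4H32.MV.S1

/-!
# Project MV (helper32): one free shift (helper2)
-/

set_option autoImplicit false

namespace Pool.Agent.J4H2.MV

open Finset MeasureTheory
open Pool.Agent.H807R2.Dav (ee norm_ee ee_add ee_zero ee_int ee_eq)
open Pool.Agent.J4H81.PT (hat cx ee_cont hat_cont int_ee ee_neg parseval bessel)
open Pool.Agent.J4H32.MV

/-- mixed correlations as Fourier coefficients -/
theorem corr2 (a b : ℕ → ℂ) (M : ℕ) (hb : ∀ s, M ≤ s → b s = 0) (D : ℕ) :
    ∫ α in (0 : ℝ)..1, (hat a M α * (starRingEnd ℂ) (hat b M α)) * ee (D * α) =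
      ∑ s ∈ range M, a s * (starRingEnd ℂ) (b (s + D)) := by
  have e : ∀ α : ℝ, (hat a M α * (starRingEnd ℂ) (hat b M α)) * ee (D * α) =
      ∑ s ∈ range M, ∑ t ∈ range M, a s * (starRingEnd ℂ) (b t) * ee (((s : ℤ) - t + D : ℤ) * α) := by
    intro α
    unfold hat
    rw [map_sum, sum_mul_sum, sum_mul]
    refine sum_congr rfl fun s _ => ?_
    rw [sum_mul]
    refine sum_congr rfl fun t _ => ?_
    rw [map_mul, ← ee_neg]
    have : ee ((((s : ℤ) - t + D : ℤ) : ℝ) * α) = ee (s * α) * ee (-(t * α)) * ee (D * α) := by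
      rw [← ee_add, ← ee_add]; congr 1; push_cast; ring
    rw [this]
    ring
  simp_rw [e]
  rw [intervalIntegral.integral_finsetSum]
  · refine sum_congr rfl fun s _ => ?_
    rw [intervalIntegral.integral_finsetSum]
    · simp_rw [intervalIntegral.integral_const_mul, int_ee]
      by_cases h : s + D < M
      · rw [sum_eq_single (s + D)]
        · rw [if_pos (by push_cast; ring), mul_one]
        · intro t _ ht
          rw [if_neg (by omega), mul_zero]
        · intro h2
          exact absurd (mem_range.2 h) h2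
      · rw [hb (s + D) (by omega), map_zero, mul_zero]
        apply sum_eq_zero
        intro t ht
        rw [mem_range] at ht
        rw [if_neg (by omega), mul_zero]
    · intro t _
      exact (continuous_const.mul (ee_cont.comp (by fun_prop))).intervalIntegrable _ _
  · intro s _
    exact (continuous_finsetSum _ fun t _ => continuous_const.mul (ee_cont.comp (by fun_prop))).intervalIntegrable _ _

theorem indic_int {B : Set ℝ} (hB : MeasurableSet B) {f : ℝ → ℝ} (hf : Continuous f) :
    IntervalIntegrable (B.indicator f) volume 0 1 := by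
  have h1 : IntegrableOn f (Set.Ioc 0 1) := by
    rw [← intervalIntegrable_iff_integrableOn_Ioc_of_le (by norm_num)]
    exact hf.intervalIntegrable _ _
  rw [intervalIntegrable_iff_integrableOn_Ioc_of_le (by norm_num)]
  exact h1.indicator hB

theorem indic_intC {B : Set ℝ} (hB : MeasurableSet B) {f : ℝ → ℂ} (hf : Continuous f) :
    IntervalIntegrable (B.indicator f) volume 0 1 := by
  have h1 : IntegrableOn f (Set.Ioc 0 1) := by
    rw [← intervalIntegrable_iff_integrableOn_Ioc_of_le (by norm_num)]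
    exact hf.intervalIntegrable _ _
  rw [intervalIntegrable_iff_integrableOn_Ioc_of_le (by norm_num)]
  exact h1.indicator hB

/-- Cauchy-Schwarz on the part `A` of the circle -/
theorem cs_arc {A : Set ℝ} (hA : MeasurableSet A) {u v : ℝ → ℝ} (hu : Continuous u) (hv : Continuous v)
    {E a : ℝ} (hE : ∫ α in (0 : ℝ)..1, A.indicator (fun α => u α ^ 2) α ≤ E)
    (ha : ∫ α in (0 : ℝ)..1, v α ^ 2 ≤ a) :
    ∫ α in (0 : ℝ)..1, A.indicator (fun α => u α * v α) α ≤ Real.sqrt (E * a) := by
  set P := ∫ α in (0 : ℝ)..1, A.indicator (fun α => u α ^ 2) α with hP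
  set Q := ∫ α in (0 : ℝ)..1, v α ^ 2 with hQ
  set C := ∫ α in (0 : ℝ)..1, A.indicator (fun α => u α * v α) α with hC
  have hi1 : IntervalIntegrable (A.indicator (fun α => u α ^ 2)) volume 0 1 := indic_int hA (hu.pow 2)
  have hi2 : IntervalIntegrable (A.indicator (fun α => u α * v α)) volume 0 1 := indic_int hA (hu.mul hv)
  have hi3 : IntervalIntegrable (fun α => v α ^ 2) volume 0 1 := (hv.pow 2).intervalIntegrable _ _
  have hP0 : 0 ≤ P := by
    apply intervalIntegral.integral_nonneg (by norm_num)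
    intro α _
    exact Set.indicator_nonneg (fun x _ => sq_nonneg _) α
  have hQ0 : 0 ≤ Q := by
    apply intervalIntegral.integral_nonneg (by norm_num)
    intro α _
    exact sq_nonneg _
  have hq : ∀ x : ℝ, 0 ≤ P * (x * x) + (-2 * C) * x + Q := by
    intro x
    have h1 : 0 ≤ ∫ α in (0 : ℝ)..1, (x ^ 2 * A.indicator (fun α => u α ^ 2) α +
        (-2 * x) * A.indicator (fun α => u α * v α) α + v α ^ 2) := by
      apply intervalIntegral.integral_nonneg (by norm_num)
      intro α _
      by_cases hα : α ∈ A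
      · rw [Set.indicator_of_mem hα, Set.indicator_of_mem hα]
        nlinarith [sq_nonneg (x * u α - v α)]
      · rw [Set.indicator_of_notMem hα, Set.indicator_of_notMem hα]
        nlinarith [sq_nonneg (v α)]
    rw [intervalIntegral.integral_add ((hi1.const_mul _).add (hi2.const_mul _)) hi3,
      intervalIntegral.integral_add (hi1.const_mul _) (hi2.const_mul _),
      intervalIntegral.integral_const_mul, intervalIntegral.integral_const_mul] at h1
    nlinarith
  have hd := discrim_le_zero hq
  unfold discrim at hd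
  have h2 : C ^ 2 ≤ E * a := by
    have : P * Q ≤ E * a := mul_le_mul hE ha hQ0 (hP0.trans hE)
    nlinarith
  exact (le_abs_self C).trans (Real.abs_le_sqrt h2)

theorem t_FR : S_FR := by
  intro T H G A E m a τ hA hH hm hτ hE hmin hG
  classical
  set h : ℝ → ℝ := fun α => ‖hat (cx H) T α‖ with hh
  set g : ℝ → ℝ := fun α => ‖hat (cx G) T α‖ with hg
  have hhc : Continuous h := (hat_cont _ _).norm
  have hgc : Continuous g := (hat_cont _ _).norm
  have hh0 : ∀ α, 0 ≤ h α := fun α => norm_nonneg _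
  have hg0 : ∀ α, 0 ≤ g α := fun α => norm_nonneg _
  have hpar : ∫ α in (0 : ℝ)..1, g α ^ 2 ≤ a := by
    rw [hg]
    simp only
    rw [parseval]
    refine le_trans (le_of_eq (sum_congr rfl fun s _ => ?_)) hG
    unfold cx
    rw [Complex.norm_real, Real.norm_eq_abs, sq_abs]
  set φ : ℝ → ℂ := fun α => hat (cx G) T α * (starRingEnd ℂ) (hat (cx H) T α) with hφ
  have hφc : Continuous φ := (hat_cont _ _).mul (Complex.continuous_conj.comp (hat_cont _ _))
  have hφn : ∀ α, ‖φ α‖ = h α * g α := by
    intro α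
    rw [hφ, hh, hg]
    simp only
    rw [norm_mul, RCLike.norm_conj, mul_comm]
  set φ1 : ℝ → ℂ := A.indicator φ with hφ1
  set φ2 : ℝ → ℂ := Aᶜ.indicator φ with hφ2
  have hi1 : IntervalIntegrable φ1 volume 0 1 := indic_intC hA hφc
  have hi2 : IntervalIntegrable φ2 volume 0 1 := indic_intC hA.compl hφc
  have hsplit : ∀ α, φ α = φ1 α + φ2 α := by
    intro α
    rw [hφ1, hφ2]
    by_cases hα : α ∈ A
    · rw [Set.indicator_of_mem hα, Set.indicator_of_notMem (by simpa using hα), add_zero]
    · rw [Set.indicator_of_notMem hα, Set.indicator_of_mem (by simpa using hα), zero_add]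
  have heec : ∀ D : ℕ, Continuous (fun α : ℝ => ee (D * α)) := fun D => ee_cont.comp (by fun_prop)
  have j1 : ∀ D : ℕ, IntervalIntegrable (fun α => φ1 α * ee (D * α)) volume 0 1 :=
    fun D => hi1.mul_continuousOn (heec D).continuousOn
  have j2 : ∀ D : ℕ, IntervalIntegrable (fun α => φ2 α * ee (D * α)) volume 0 1 :=
    fun D => hi2.mul_continuousOn (heec D).continuousOn
  -- the correlation
  have hcor : ∀ D : ℕ, ((∑ s ∈ range T, G s * H (s + D) : ℝ) : ℂ) =
      (∫ α in (0 : ℝ)..1, φ1 α * ee (D * α)) + ∫ α in (0 : ℝ)..1, φ2 α * ee (D * α) := by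
    intro D
    rw [← intervalIntegral.integral_add (j1 D) (j2 D)]
    have h1 := corr2 (cx G) (cx H) T (fun s hs => by unfold cx; rw [hH s hs, Complex.ofReal_zero]) D
    have h2 : ((∑ s ∈ range T, G s * H (s + D) : ℝ) : ℂ) =
        ∑ s ∈ range T, cx G s * (starRingEnd ℂ) (cx H (s + D)) := by
      push_cast
      refine sum_congr rfl fun s _ => ?_
      unfold cx
      rw [Complex.conj_ofReal]
    rw [h2, ← h1]
    refine intervalIntegral.integral_congr fun α _ => ?_
    change φ α * ee (D * α) = φ1 α * ee (D * α) + φ2 α * ee (D * α)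
    rw [hsplit α, add_mul]
  -- the major arcs
  have hmaj : ∀ D : ℕ, ‖∫ α in (0 : ℝ)..1, φ1 α * ee (D * α)‖ ≤ Real.sqrt (E * a) := by
    intro D
    calc ‖∫ α in (0 : ℝ)..1, φ1 α * ee (D * α)‖ ≤ ∫ α in (0 : ℝ)..1, ‖φ1 α * ee (D * α)‖ :=
          intervalIntegral.norm_integral_le_integral_norm (by norm_num)
      _ = ∫ α in (0 : ℝ)..1, A.indicator (fun α => h α * g α) α := by
          refine intervalIntegral.integral_congr fun α _ => ?_
          change ‖φ1 α * ee (D * α)‖ = A.indicator (fun α => h α * g α) α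
          rw [norm_mul, norm_ee, mul_one, hφ1]
          by_cases hα : α ∈ A
          · rw [Set.indicator_of_mem hα, Set.indicator_of_mem hα, hφn]
          · rw [Set.indicator_of_notMem hα, Set.indicator_of_notMem hα, norm_zero]
      _ ≤ Real.sqrt (E * a) := cs_arc hA hhc hgc hE hpar
  -- the minor arcs
  set Ex : Finset ℕ := (range T).filter (fun D => τ < ‖∫ α in (0 : ℝ)..1, φ2 α * ee (D * α)‖) with hEx
  refine ⟨Ex, ?_, ?_⟩
  · have hre : ∀ α, (φ2 α).re = Aᶜ.indicator (fun α => (φ α).re) α := by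
      intro α
      rw [hφ2]
      by_cases hα : α ∈ Aᶜ
      · rw [Set.indicator_of_mem hα, Set.indicator_of_mem hα]
      · rw [Set.indicator_of_notMem hα, Set.indicator_of_notMem hα, Complex.zero_re]
    have him : ∀ α, (φ2 α).im = Aᶜ.indicator (fun α => (φ α).im) α := by
      intro α
      rw [hφ2]
      by_cases hα : α ∈ Aᶜ
      · rw [Set.indicator_of_mem hα, Set.indicator_of_mem hα]
      · rw [Set.indicator_of_notMem hα, Set.indicator_of_notMem hα, Complex.zero_im]
    have hire : IntervalIntegrable (fun α => (φ2 α).re) volume 0 1 := by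
      simp_rw [hre]
      exact indic_int hA.compl (Complex.continuous_re.comp hφc)
    have hiim : IntervalIntegrable (fun α => (φ2 α).im) volume 0 1 := by
      simp_rw [him]
      exact indic_int hA.compl (Complex.continuous_im.comp hφc)
    have hsqi : ∀ f : ℝ → ℝ, Continuous f → IntervalIntegrable (fun α => (Aᶜ.indicator f α) ^ 2) volume 0 1 := by
      intro f hf
      have : (fun α => (Aᶜ.indicator f α) ^ 2) = Aᶜ.indicator (fun α => f α ^ 2) := by
        funext α
        by_cases hα : α ∈ Aᶜ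
        · rw [Set.indicator_of_mem hα, Set.indicator_of_mem hα]
        · rw [Set.indicator_of_notMem hα, Set.indicator_of_notMem hα]; norm_num
      rw [this]
      exact indic_int hA.compl (hf.pow 2)
    have hire2 : IntervalIntegrable (fun α => (φ2 α).re ^ 2) volume 0 1 := by
      simp_rw [hre]
      exact hsqi _ (Complex.continuous_re.comp hφc)
    have hiim2 : IntervalIntegrable (fun α => (φ2 α).im ^ 2) volume 0 1 := by
      simp_rw [him]
      exact hsqi _ (Complex.continuous_im.comp hφc)
    have hB1 := bessel (fun α => (φ2 α).re) hire hire2 Ex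
    have hB2 := bessel (fun α => (φ2 α).im) hiim hiim2 Ex
    have hspl : ∀ D : ℕ, ∫ α in (0 : ℝ)..1, φ2 α * ee (D * α) =
        (∫ α in (0 : ℝ)..1, ((φ2 α).re : ℂ) * ee (D * α)) +
          Complex.I * ∫ α in (0 : ℝ)..1, ((φ2 α).im : ℂ) * ee (D * α) := by
      intro D
      have k1 : IntervalIntegrable (fun α => ((φ2 α).re : ℂ) * ee (D * α)) volume 0 1 :=
        IntervalIntegrable.mul_continuousOn ⟨hire.1.ofReal, hire.2.ofReal⟩ (heec D).continuousOn
      have k2 : IntervalIntegrable (fun α => ((φ2 α).im : ℂ) * ee (D * α)) volume 0 1 :=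
        IntervalIntegrable.mul_continuousOn ⟨hiim.1.ofReal, hiim.2.ofReal⟩ (heec D).continuousOn
      rw [← intervalIntegral.integral_const_mul, ← intervalIntegral.integral_add k1 (k2.const_mul _)]
      refine intervalIntegral.integral_congr fun α _ => ?_
      change φ2 α * ee (D * α) = ((φ2 α).re : ℂ) * ee (D * α) + Complex.I * (((φ2 α).im : ℂ) * ee (D * α))
      conv_lhs => rw [← Complex.re_add_im (φ2 α)]
      ring
    have h1 : (Ex.card : ℝ) * τ ^ 2 ≤ ∑ D ∈ Ex, (2 * ‖∫ α in (0 : ℝ)..1, ((φ2 α).re : ℂ) * ee (D * α)‖ ^ 2 +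
        2 * ‖∫ α in (0 : ℝ)..1, ((φ2 α).im : ℂ) * ee (D * α)‖ ^ 2) := by
      rw [← nsmul_eq_mul, ← sum_const]
      apply sum_le_sum
      intro D hD
      rw [hEx, mem_filter] at hD
      have h3 := hD.2
      rw [hspl D] at h3
      have h4 := norm_add_le (∫ α in (0 : ℝ)..1, ((φ2 α).re : ℂ) * ee (D * α))
        (Complex.I * ∫ α in (0 : ℝ)..1, ((φ2 α).im : ℂ) * ee (D * α))
      rw [norm_mul, Complex.norm_I, one_mul] at h4
      set p := ‖∫ α in (0 : ℝ)..1, ((φ2 α).re : ℂ) * ee (D * α)‖
      set q := ‖∫ α in (0 : ℝ)..1, ((φ2 α).im : ℂ) * ee (D * α)‖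
      have h5 : τ ^ 2 ≤ (p + q) ^ 2 := pow_le_pow_left₀ hτ.le (by linarith) 2
      nlinarith [sq_nonneg (p - q)]
    have h2 : (∫ α in (0 : ℝ)..1, (φ2 α).re ^ 2) + (∫ α in (0 : ℝ)..1, (φ2 α).im ^ 2) ≤ m ^ 2 * a := by
      rw [← intervalIntegral.integral_add hire2 hiim2]
      calc ∫ α in (0 : ℝ)..1, ((φ2 α).re ^ 2 + (φ2 α).im ^ 2) ≤ ∫ α in (0 : ℝ)..1, m ^ 2 * g α ^ 2 := by
            apply intervalIntegral.integral_mono_on (by norm_num) (hire2.add hiim2)
              ((hgc.pow 2).intervalIntegrable _ _ |>.const_mul _)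
            intro α hα
            have h3 : (φ2 α).re ^ 2 + (φ2 α).im ^ 2 = ‖φ2 α‖ ^ 2 := by
              rw [← Complex.normSq_eq_norm_sq, Complex.normSq_apply]; ring
            rw [h3, hφ2]
            by_cases hα2 : α ∈ A
            · rw [Set.indicator_of_notMem (by simpa using hα2), norm_zero, zero_pow two_ne_zero]
              exact mul_nonneg (sq_nonneg _) (sq_nonneg _)
            · rw [Set.indicator_of_mem (by simpa using hα2), hφn, mul_pow]
              have h4 := hmin α hα.1 hα.2 hα2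
              have h5 : h α ^ 2 ≤ m ^ 2 := pow_le_pow_left₀ (hh0 α) h4 2
              exact mul_le_mul_of_nonneg_right h5 (sq_nonneg _)
        _ = m ^ 2 * ∫ α in (0 : ℝ)..1, g α ^ 2 := by rw [intervalIntegral.integral_const_mul]
        _ ≤ m ^ 2 * a := by gcongr
    rw [le_div_iff₀ (pow_pos hτ 2)]
    rw [sum_add_distrib, ← mul_sum, ← mul_sum] at h1
    linarith
  · intro D hDT hD
    have h1 : ‖∫ α in (0 : ℝ)..1, φ2 α * ee (D * α)‖ ≤ τ := by
      by_contra hcon
      push Not at hcon
      exact hD (by rw [hEx, mem_filter]; exact ⟨mem_range.2 hDT, hcon⟩)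
    have h2 := hmaj D
    have h3 : ‖((∑ s ∈ range T, G s * H (s + D) : ℝ) : ℂ)‖ ≤ Real.sqrt (E * a) + τ := by
      rw [hcor D]
      exact (norm_add_le _ _).trans (add_le_add h2 h1)
    rw [Complex.norm_real, Real.norm_eq_abs] at h3
    exact h3

end Pool.Agent.J4H2.MV
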