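import Pool.Agent.J4H32.MV.S1

/-!
# Project MV (helper32): telescoping (helper2)
-/

set_option autoImplicit false

namespace Pool.Agent.J4H2.MV

open Finset MeasureTheory
open Pool.Agent.J4H81.PT (hat cx)
open Pool.Agent.J4H32.MV

theorem prod_ite_one {K : ℕ} (i : Fin K) (T : ℕ) : ∏ j : Fin K, (if j = i then 1 else T) = T ^ (K - 1) := by
  rw [prod_ite, prod_const_one, one_mul, prod_const]
  congr 1
  have h1 : (univ.filter (fun j : Fin K => ¬ j = i)) = univ.erase i := by
    ext j; simp
  rw [h1, card_erase_of_mem (mem_univ i), card_univ, Fintype.card_fin]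

open Classical in
/-- tuples with one coordinate in a small set depending on the others -/
theorem card_coord {K : ℕ} (i : Fin K) (T : ℕ) (Ex : (Fin K → ℕ) → Finset ℕ) {c : ℝ} (hc : 0 ≤ c)
    (hEx : ∀ u, ((Ex u).card : ℝ) ≤ c) :
    (((Fintype.piFinset (fun _ : Fin K => range T)).filter
      (fun t => t i ∈ Ex (Function.update t i 0))).card : ℝ) ≤ c * (T : ℝ) ^ (K - 1) := by
  set B := (Fintype.piFinset (fun _ : Fin K => range T)).filter
      (fun t => t i ∈ Ex (Function.update t i 0)) with hB
  set P : Finset (Fin K → ℕ) := Fintype.piFinset (fun j => if j = i then {0} else range T) with hP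
  have hPc : P.card = T ^ (K - 1) := by
    rw [hP, Fintype.card_piFinset, ← prod_ite_one i T]
    refine prod_congr rfl fun j _ => ?_
    split_ifs <;> simp
  have hmap : ∀ t ∈ B, Function.update t i 0 ∈ P := by
    intro t ht
    rw [hB, mem_filter, Fintype.mem_piFinset] at ht
    rw [hP, Fintype.mem_piFinset]
    intro j
    by_cases hj : j = i
    · subst hj; simp
    · rw [Function.update_of_ne hj, if_neg hj]
      exact ht.1 j
  have h1 : B.card = ∑ u ∈ P, (B.filter (fun t => Function.update t i 0 = u)).card :=
    card_eq_sum_card_fiberwise hmap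
  have h2 : ∀ u ∈ P, ((B.filter (fun t => Function.update t i 0 = u)).card : ℝ) ≤ c := by
    intro u _
    refine le_trans ?_ (hEx u)
    exact_mod_cast card_le_card_of_injOn (fun t : Fin K → ℕ => t i) (by
      intro t ht
      have ht' : t ∈ B.filter (fun t => Function.update t i 0 = u) := by simpa using ht
      rw [mem_filter, hB, mem_filter] at ht'
      have := ht'.1.2
      rw [ht'.2] at this
      simpa using this) (by
      intro t ht t' ht' htt
      have h3 : t ∈ B.filter (fun t => Function.update t i 0 = u) := by simpa using ht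
      have h4 : t' ∈ B.filter (fun t => Function.update t i 0 = u) := by simpa using ht'
      rw [mem_filter] at h3 h4
      have h5 : Function.update t i 0 = Function.update t' i 0 := h3.2.trans h4.2.symm
      funext j
      by_cases hj : j = i
      · subst hj; exact htt
      · have := congrFun h5 j
        rwa [Function.update_of_ne hj, Function.update_of_ne hj] at this)
  rw [h1]
  push_cast
  calc ∑ u ∈ P, ((B.filter (fun t => Function.update t i 0 = u)).card : ℝ) ≤ ∑ u ∈ P, c := sum_le_sum h2
    _ = c * (T : ℝ) ^ (K - 1) := by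
        rw [sum_const, hPc, nsmul_eq_mul]
        push_cast
        ring

theorem t_TE : S_FR → S_TE := by
  intro hFR K T S₀ F g A E m a τ hA hST hF hg hm hτ hE hmin hsq
  classical
  set W : Fin K → (Fin K → ℕ) → ℕ → ℝ := fun i t s =>
    (∏ j ∈ univ.filter (fun j => j < i), g j (s + t j)) * ∏ j ∈ univ.filter (fun j => i < j), F j (s + t j) with hW
  set G : Fin K → (Fin K → ℕ) → ℕ → ℝ := fun i t s => if s < S₀ then W i t s else 0 with hG
  have hWu : ∀ i t s, W i (Function.update t i 0) s = W i t s := by
    intro i t s
    rw [hW]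
    simp only
    congr 1
    · refine prod_congr rfl fun j hj => ?_
      rw [mem_filter] at hj
      rw [Function.update_of_ne (ne_of_lt hj.2)]
    · refine prod_congr rfl fun j hj => ?_
      rw [mem_filter] at hj
      rw [Function.update_of_ne (ne_of_gt hj.2)]
  have hGsq : ∀ i t, ∑ s ∈ range T, G i t s ^ 2 ≤ a := by
    intro i t
    refine le_trans (sum_le_sum fun s _ => ?_) (hsq i t)
    rw [hG]
    simp only
    split_ifs
    · exact le_of_eq rfl
    · rw [zero_pow two_ne_zero]
      exact sq_nonneg _
  have key := fun (i : Fin K) (t : Fin K → ℕ) => hFR T (fun s => F i s - g i s) (G i t) A E m a τ hA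
    (fun s hs => by rw [hF i s hs, hg i s hs, sub_zero]) hm hτ (hE i) (hmin i) (hGsq i t)
  choose Ex hEx1 hEx2 using key
  have ha0 : 0 ≤ 2 * m ^ 2 * a / τ ^ 2 ∨ K = 0 := by
    rcases Nat.eq_zero_or_pos K with h | h
    · exact Or.inr h
    · left
      have := hEx1 ⟨0, h⟩ 0
      exact (Nat.cast_nonneg _).trans this
  set c : ℝ := 2 * m ^ 2 * a / τ ^ 2 with hc
  have hsub : (Fintype.piFinset (fun _ : Fin K => range T)).filter (fun t =>
      K * (Real.sqrt (E * a) + τ) < |∑ s ∈ range S₀, (∏ j, F j (s + t j) - ∏ j, g j (s + t j))|) ⊆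
      univ.biUnion (fun i : Fin K => (Fintype.piFinset (fun _ : Fin K => range T)).filter
        (fun t => t i ∈ Ex i (Function.update t i 0))) := by
    intro t ht
    rw [mem_filter, Fintype.mem_piFinset] at ht
    rw [mem_biUnion]
    by_contra hcon
    push Not at hcon
    have hno : ∀ i, t i ∉ Ex i (Function.update t i 0) := by
      intro i hi
      exact hcon i (mem_univ i) (by rw [mem_filter, Fintype.mem_piFinset]; exact ⟨ht.1, hi⟩)
    have h1 : ∀ i, |∑ s ∈ range S₀, W i t s * (F i (s + t i) - g i (s + t i))| ≤ Real.sqrt (E * a) + τ := by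
      intro i
      have h2 := hEx2 i (Function.update t i 0) (t i) (mem_range.1 (ht.1 i)) (hno i)
      have h3 : ∑ s ∈ range T, G i (Function.update t i 0) s * (F i (s + t i) - g i (s + t i)) =
          ∑ s ∈ range S₀, W i t s * (F i (s + t i) - g i (s + t i)) := by
        have hss : range S₀ ⊆ range T := range_subset_range.2 hST
        rw [← sum_subset hss (f := fun s => G i (Function.update t i 0) s * (F i (s + t i) - g i (s + t i)))]
        · refine sum_congr rfl fun s hs => ?_
          rw [hG]
          simp only
          rw [if_pos (mem_range.1 hs), hWu]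
        · intro s _ hs
          rw [hG]
          simp only
          rw [if_neg (by simpa using hs), zero_mul]
      rw [← h3]
      exact h2
    have h4 : ∑ s ∈ range S₀, (∏ j, F j (s + t j) - ∏ j, g j (s + t j)) =
        ∑ i : Fin K, ∑ s ∈ range S₀, W i t s * (F i (s + t i) - g i (s + t i)) := by
      rw [sum_comm]
      refine sum_congr rfl fun s _ => ?_
      have h5 := prod_sub_ordered (univ : Finset (Fin K)) (fun j => F j (s + t j))
        (fun j => F j (s + t j) - g j (s + t j))
      simp only [sub_sub_cancel] at h5
      rw [h5, sub_sub_cancel]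
      refine sum_congr rfl fun i _ => ?_
      rw [hW]
      simp only
      ring
    have h6 : |∑ s ∈ range S₀, (∏ j, F j (s + t j) - ∏ j, g j (s + t j))| ≤ K * (Real.sqrt (E * a) + τ) := by
      rw [h4]
      refine (abs_sum_le_sum_abs _ _).trans ((sum_le_sum fun i _ => h1 i).trans (le_of_eq ?_))
      rw [sum_const, card_univ, Fintype.card_fin, nsmul_eq_mul]
    exact absurd ht.2 (not_lt.2 h6)
  have hcard := card_le_card hsub
  have h7 : ((univ.biUnion (fun i : Fin K => (Fintype.piFinset (fun _ : Fin K => range T)).filter
        (fun t => t i ∈ Ex i (Function.update t i 0)))).card : ℝ) ≤ K * c * (T : ℝ) ^ (K - 1) := by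
    calc ((univ.biUnion (fun i : Fin K => (Fintype.piFinset (fun _ : Fin K => range T)).filter
        (fun t => t i ∈ Ex i (Function.update t i 0)))).card : ℝ)
        ≤ ∑ i : Fin K, (((Fintype.piFinset (fun _ : Fin K => range T)).filter
        (fun t => t i ∈ Ex i (Function.update t i 0))).card : ℝ) := by exact_mod_cast card_biUnion_le
      _ ≤ ∑ i : Fin K, c * (T : ℝ) ^ (K - 1) := by
          refine sum_le_sum fun i _ => ?_
          have hc0 : 0 ≤ c := by
            rcases ha0 with h | h
            · exact h
            · subst h; exact i.elim0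
          exact card_coord i T (Ex i) hc0 (hEx1 i)
      _ = K * c * (T : ℝ) ^ (K - 1) := by
          rw [sum_const, card_univ, Fintype.card_fin, nsmul_eq_mul]; ring
  exact le_trans (by exact_mod_cast hcard) h7

end Pool.Agent.J4H2.MV
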